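import Pool.Agent.MP_47bb2a_mp.H74.Power

/-! The constrained de Finetti reduction for separable states in all dimensions, with the exact
exponent, after raising both sides to a power that does not depend on the number of copies. -/

open MeasureTheory Pool.Agent.MP_47bb2a_mp.H97 Pool.Agent.MP_47bb2a_mp.H74

namespace Pool.Agent.Results.MP_47bb2a_mp.PowerOrder

theorem result (dA dB : ℕ) (hA : 0 < dA) (hB : 0 < dB) :
    ∃ μ : Measure (States (Fin dA × Fin dB)), IsProbabilityMeasure μ ∧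
      ∀ Δ > (0 : ℝ), ∃ s : ℝ, 0 < s ∧ s ≤ 1 ∧ ∃ N : ℕ, ∀ n, N ≤ n →
        ∀ σ ∈ Sep (Fin dA) (Fin dB) n, Symm σ → PowDominated μ
          (fun ω => (EReal.exp (-relEntSep (tp n ω.1) + (n * Δ : ℝ))).toReal) s σ :=
  have : Nonempty (Fin dA) := ⟨⟨0, hA⟩⟩
  have : Nonempty (Fin dB) := ⟨⟨0, hB⟩⟩
  power _ _

end Pool.Agent.Results.MP_47bb2a_mp.PowerOrder
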